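import Pool.Agent.MP_5f72fe_nt.H25.SpecD
import Pool.Agent.MP_5f72fe_nt.H40.TER

/-! Row TERP: theta series of the harmonic polynomials `PdP`. -/

namespace Pool.Agent.MP_5f72fe_nt.H9

open Complex Pool.Agent.MP_5f72fe_nt.H3 Pool.Agent.MP_5f72fe_nt.H25 Pool.Agent.MP_5f72fe_nt.H40

lemma wp_smul {j : ℕ} (x : ℂ) {c : ℕ → ℂ} (h : WP j c) : WP j (x • c) := by
  obtain ⟨h1, h2, h3⟩ := h
  refine ⟨fun r hr0 hr1 => ((h1 r hr0 hr1).mul_left ‖x‖).congr fun n => ?_,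
    fun n hn => h2 n fun h => hn ?_, fun τ hτ μ hμ => ?_⟩
  · rw [Pi.smul_apply, smul_eq_mul, norm_mul, mul_assoc]
  · rw [Pi.smul_apply, h, smul_zero]
  · rw [ser_par_smul, ser_par_smul, ser_par_smul, h3 τ hτ μ hμ]
    ring

/-- the space of forms -/
def wp (hS : RowSER) (j : ℕ) : Submodule ℂ (ℕ → ℂ) where
  carrier := {h | WP j h}
  smul_mem' x _ h := wp_smul x h
  zero_mem' := by
    refine ⟨fun r _ _ => by simpa using summable_zero, fun n hn => absurd rfl hn,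
      fun τ _ μ _ => ?_⟩
    simp [ser, par]
  add_mem' := by
    rintro c d ⟨h1, h2, h3⟩ ⟨k1, k2, k3⟩
    refine ⟨fun r hr0 hr1 => Summable.of_nonneg_of_le (fun n => by positivity) (fun n => ?_)
      ((h1 r hr0 hr1).add (k1 r hr0 hr1)), fun n hn => ?_, fun τ hτ μ hμ => ?_⟩
    · rw [← add_mul]
      exact mul_le_mul_of_nonneg_right (norm_add_le _ _) (by positivity)
    · by_cases h : c n = 0
      · exact k2 n fun h' => hn (by rw [Pi.add_apply, h, h', add_zero])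
      · exact h2 n h
    · have hτ' : 0 < (-1 / (((1 : ℕ) : ℂ) * τ)).im := by
        have h0 : τ ≠ 0 := fun h => by simp [h] at hτ
        rw [Nat.cast_one, one_mul, neg_div, one_div, neg_im, inv_im, neg_div, neg_neg]
        exact div_pos hτ (normSq_pos.2 h0)
      rw [ser_par_add hS (by norm_num) h1 k1 μ hτ', ser_par_add hS (by norm_num) h1 k1 0 hτ,
        ser_par_add hS (by norm_num) h1 k1 1 hτ, h3 τ hτ μ hμ, k3 τ hτ μ hμ]
      ring

lemma chi3_neg_sq (b : ℤ) : chi3 (-b) ^ 2 = chi3 b ^ 2 := by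
  have h : chi3 (-b) = -chi3 b := by
    simp only [chi3, Int.bmod_def]
    split_ifs <;> omega
  rw [h, neg_sq]

lemma sum_reP (d m n : ℕ) (s : ℂ) (hs : s ^ 2 = -3) :
    ∑ v ∈ Rp n, (ep v : ℂ) * ((v.2.1 + v.2.2 * s) ^ m * rad d m v) =
      ((∑ v ∈ Rp n, PdP d m v : ℤ) : ℂ) := by
  have h1 := sum_flip n fun v => (ep v : ℂ) * ((v.2.1 + v.2.2 * s) ^ m * rad d m v)
  refine mul_left_cancel₀ (two_ne_zero' ℂ) ?_
  rw [two_mul]
  nth_rewrite 1 [← h1]
  rw [← Finset.sum_add_distrib, Int.cast_sum, Finset.mul_sum]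
  refine Finset.sum_congr rfl fun v _ => ?_
  have h2 : rad d m (v.1, v.2.1, -v.2.2) = rad d m v := by simp [rad]
  have h3 := zpow_eq v.2.1 v.2.2 s hs m
  have h4 := zpow_eq v.2.1 v.2.2 (-s) (by rw [neg_sq, hs]) m
  have h5 : (PdP d m v : ℂ) =
      ep v * (((⟨v.2.1, v.2.2⟩ : ℤ√(-3)) ^ m).re : ℂ) * rad d m v := by
    simp [PdP, rad]
  have h6 : ep (v.1, v.2.1, -v.2.2) = ep v := by simp only [ep, chi3_neg_sq]
  simp only
  rw [h2, h5, h6, h3, Int.cast_neg, neg_mul, ← mul_neg, h4]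
  ring

theorem rowTERP : OfTERP := by
  intro hS hT d l hd
  obtain ⟨s, hs⟩ : ∃ s : ℂ, s ^ 2 = -3 := ⟨I * (√3 : ℝ), by
    rw [mul_pow, I_sq, ← ofReal_pow, Real.sq_sqrt (by norm_num)]
    norm_num⟩
  have h1 := coef_mem (wp hS d) (Finset.range (d + 1) ×ˢ Finset.range (d + 1))
    (fun p => d - p.1 + p.2)
    (fun p n => ∑ v ∈ Rp (3 * n), (ep v : ℂ) * (((d.choose p.1 * (d - p.1).choose p.2 : ℕ) : ℂ) *
      (-3 * (v.2.1 - v.2.2 * s)) ^ p.1 * (v.2.1 + v.2.2 * s) ^ p.2 * (6 * v.1) ^ (d - p.1 - p.2)))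
    (fun t ht => ?_) (d + 6 * l)
  · have h3 : WP d _ := h1
    refine (congrArg (WP d) (funext fun n => ?_)).mp h3
    rw [Finset.sum_apply, THF, ← sum_reP d (6 * l) (3 * n) s hs]
    simp_rw [← coef d (6 * l) s hs, Finset.mul_sum]
    rw [Finset.sum_comm]
    refine Finset.sum_congr rfl fun p _ => ?_
    split_ifs
    · rfl
    · simp
  · have h2 := wp_smul (t ^ d) (hT d 6 (t - 3 / t) (s * (t + 3 / t)) hd (by
      rw [mul_pow, hs]
      field_simp
      ring))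
    refine (congrArg (WP d) (funext fun n => ?_)).mp h2
    rw [Pi.smul_apply, Finset.sum_apply, smul_eq_mul, Finset.mul_sum]
    simp only [Pi.smul_apply, smul_eq_mul, Finset.mul_sum]
    rw [Finset.sum_comm]
    refine Finset.sum_congr rfl fun v _ => ?_
    rw [mul_left_comm, ← mul_pow]
    have h3 : t * (6 * (v.1 : ℂ) + (t - 3 / t) * v.2.1 + s * (t + 3 / t) * v.2.2) =
        -3 * (v.2.1 - v.2.2 * s) + t * ((v.2.1 + v.2.2 * s) * t + 6 * v.1) := by
      field_simp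
      ring
    rw [h3, tri, Finset.mul_sum]
    exact Finset.sum_congr rfl fun p _ => mul_left_comm _ _ _

end Pool.Agent.MP_5f72fe_nt.H9
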