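import Pool.Agent.MP_5f72fe_nt.H3.SpecC

/-! Modular forms of level `3` are polynomials in `a` and `κ³`. -/

set_option autoImplicit false

namespace Pool.Agent.MP_5f72fe_nt.H9

open Pool.Agent.MP_5f72fe_nt.H3
open Complex Filter Topology
open scoped Real MatrixGroups UpperHalfPlane

theorem im_inv {τ : ℂ} (h : 0 < τ.im) : 0 < (-1 / τ).im := by
  have h0 : τ ≠ 0 := fun e => by simp [e] at h
  have : (-1 / τ).im = τ.im / normSq τ := by
    rw [neg_div, one_div, neg_im, inv_im, neg_div, neg_neg]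
  rw [this]
  exact div_pos h (normSq_pos.2 h0)

theorem ne0 {τ : ℂ} (h : 0 < τ.im) : τ ≠ 0 := fun e => by simp [e] at h

theorem im3 {τ : ℂ} (h : 0 < τ.im) : 0 < (3 * τ).im := by simpa using h

theorem imd (τ : ℂ) (t : ℝ) : ((τ + t) / 3).im = τ.im / 3 := by
  have : (τ + t) / 3 = (τ + t) / ((3 : ℝ) : ℂ) := by norm_num
  rw [this, div_ofReal_im]; simp

theorem imd' {τ : ℂ} (h : 0 < τ.im) (t : ℝ) : 0 < ((τ + t) / 3).im := by
  rw [imd]; positivity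

theorem ex0 (F : ℂ → ℂ) : Ex 0 F ↔ Hol1 F := by
  have : (fun τ => F τ * E (-(((0 : ℝ) : ℂ) * τ))) = F := by funext τ; simp [E]
  rw [Ex, this]

theorem ld0 (F : ℂ → ℂ) (l : ℂ) : Ld 0 F l ↔ Tendsto F (comap Complex.im atTop) (𝓝 l) := by
  have : (fun τ => F τ * E (-(((0 : ℝ) : ℂ) * τ))) = F := by funext τ; simp [E]
  rw [Ld, this]

theorem diffG {G : ℂ → ℂ} (hG : Hol1 G) (t : ℝ) :
    DifferentiableOn ℂ (fun τ => G ((τ + t) / 3)) {τ | 0 < τ.im} :=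
  hG.1.comp (by fun_prop) fun τ hτ => imd' hτ t

theorem neg_zero (S : RowSER) (w : ℤ) (hw : w < 0) (F G : ℂ → ℂ) (hF : Hol1 F) (hG : Hol1 G)
    (law : ∀ τ : ℂ, 0 < τ.im → F (-1 / (3 * τ)) = τ ^ w * G τ) :
    ∀ τ : ℂ, 0 < τ.im → F τ = 0 := by
  have l1 : ∀ τ : ℂ, 0 < τ.im → F (-1 / τ) = (τ / 3) ^ w * G (τ / 3) := fun τ h => by
    have := law (τ / 3) (by simpa using imd' h 0)
    rwa [show 3 * (τ / 3) = τ by ring] at this
  have l2 : ∀ τ : ℂ, 0 < τ.im → G (-1 / (3 * τ)) = (-3 * τ) ^ w * F τ := fun τ h => by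
    have h0 := ne0 h
    have := law (-1 / (3 * τ)) (im_inv (im3 h))
    rw [show -1 / (3 * (-1 / (3 * τ))) = τ by field_simp] at this
    rw [this, ← mul_assoc, ← mul_zpow, show -3 * τ * (-1 / (3 * τ)) = 1 by field_simp, one_zpow,
      one_mul]
  let N : ℂ → ℂ := fun τ => F τ * (G ((τ + (0 : ℝ)) / 3) * (G ((τ + (1 : ℝ)) / 3) *
    G ((τ + (2 : ℝ)) / 3)))
  have hN : Hol1 N := by
    refine ⟨hF.1.mul ((diffG hG 0).mul ((diffG hG 1).mul (diffG hG 2))), fun τ h => ?_, ?_⟩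
    · have e := hG.2.1 _ (imd' h 0)
      simp only [N]
      push_cast at e ⊢
      rw [hF.2.1 τ h, show (τ + 1 + 0) / 3 = (τ + 1) / 3 by ring,
        show (τ + 1 + 1) / 3 = (τ + 2) / 3 by ring,
        show (τ + 1 + 2) / 3 = (τ + 0) / 3 + 1 by ring, e]
      ring
    · obtain ⟨C, Y, h1⟩ := hF.2.2
      obtain ⟨C', Y', h2⟩ := hG.2.2
      refine ⟨C * (C' * (C' * C')), max Y (3 * Y'), fun τ h => ?_⟩
      have hY : Y ≤ τ.im := (le_max_left _ _).trans h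
      have hY' : 3 * Y' ≤ τ.im := (le_max_right _ _).trans h
      have g : ∀ t : ℝ, ‖G ((τ + t) / 3)‖ ≤ C' := fun t => h2 _ (by rw [imd]; linarith)
      have c0 : 0 ≤ C := (norm_nonneg _).trans (h1 τ hY)
      have c1 : 0 ≤ C' := (norm_nonneg _).trans (g 0)
      simp only [N, norm_mul]
      have := g 0
      have := g 1
      have := g 2
      have := h1 τ hY
      gcongr
  have lawN : ∀ τ : ℂ, 0 < τ.im → N (-1 / τ) = τ ^ (4 * w) * N τ := fun τ h => by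
    have h0 := ne0 h
    have hm : 0 < (τ - 1).im := by simpa using h
    have hp : 0 < (τ + 1).im := by simpa using h
    have hm0 := ne0 hm
    have hp0 := ne0 hp
    have a1 : G ((-1 / τ + 1) / 3) = τ ^ w * G ((τ + 2) / 3) := by
      have hs : 0 < (-1 / (τ - 1) - 1).im := by simpa using im_inv hm
      have e1 := l2 _ hs
      have e2 := hF.2.1 _ hs
      have e3 := hG.2.1 ((τ - 1) / 3) (by simpa [sub_eq_add_neg] using imd' h (-1))
      have e4 : -1 / (τ - 1) - 1 = -τ / (τ - 1) := by field_simp; ring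
      rw [sub_add_cancel, l1 _ hm] at e2
      rw [← e2, e4, show -1 / (3 * (-τ / (τ - 1))) = (-1 / τ + 1) / 3 by field_simp; ring,
        ← mul_assoc, ← mul_zpow, show -3 * (-τ / (τ - 1)) * ((τ - 1) / 3) = τ by field_simp,
        ← e3, show (τ - 1) / 3 + 1 = (τ + 2) / 3 by ring] at e1
      exact e1
    have a2 : G ((-1 / τ + 2) / 3) = (-τ) ^ w * G ((τ + 1) / 3) := by
      have hs : 0 < (-1 / (τ + 1) + 1).im := by simpa using im_inv hp
      have e1 := l2 _ hs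
      have e2 := hF.2.1 _ (im_inv hp)
      have e3 := hG.2.1 _ (im_inv (im3 hs))
      have e4 : -1 / (τ + 1) + 1 = τ / (τ + 1) := by field_simp; ring
      rw [l1 _ hp] at e2
      rw [e2, ← e3, e4, show -1 / (3 * (τ / (τ + 1))) + 1 = (-1 / τ + 2) / 3 by field_simp; ring,
        ← mul_assoc, ← mul_zpow,
        show -3 * (τ / (τ + 1)) * ((τ + 1) / 3) = -τ by field_simp] at e1
      exact e1
    have a3 : τ ^ (4 * w) = (τ / 3) ^ w * ((-3 * τ) ^ w * (τ ^ w * (-τ) ^ w)) := by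
      rw [← mul_zpow, ← mul_zpow, ← mul_zpow, zpow_mul]
      congr 1
      rw [show (4 : ℤ) = ((4 : ℕ) : ℤ) from rfl, zpow_natCast]
      ring
    simp only [N]
    push_cast
    rw [a1, a2, l1 τ h, show (-1 / τ + 0) / 3 = -1 / (3 * τ) by field_simp; ring, l2 τ h, a3,
      add_zero]
    ring
  obtain ⟨f, hf⟩ := S.lev (4 * w) N hN lawN
  have f0 := ModularFormClass.levelOne_neg_weight_eq_zero (by omega : 4 * w < 0) f
  have N0 : ∀ τ ∈ {τ : ℂ | 0 < τ.im}, N τ = 0 := fun τ h => by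
    have := hf ⟨τ, h⟩
    rw [f0] at this
    exact this.symm
  have hU : IsOpen {τ : ℂ | 0 < τ.im} := isOpen_lt continuous_const continuous_im
  have hP : IsPreconnected {τ : ℂ | 0 < τ.im} := (convex_halfSpace_im_gt 0).isPreconnected
  have an : ∀ t : ℝ, AnalyticOnNhd ℂ (fun τ => G ((τ + t) / 3)) {τ | 0 < τ.im} := fun t =>
    (diffG hG t).analyticOnNhd hU
  have fin : ∀ t : ℝ, (∀ τ ∈ {τ : ℂ | 0 < τ.im}, G ((τ + t) / 3) = 0) →
      ∀ τ : ℂ, 0 < τ.im → F τ = 0 := fun t ht τ h => by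
    have h0 := ne0 h
    have h1 := im_inv h
    have e1 := l1 _ h1
    have e2 := ht (-1 / τ - t) (by simpa using h1)
    rw [sub_add_cancel] at e2
    rw [e2, mul_zero, show -1 / (-1 / τ) = τ by field_simp] at e1
    exact e1
  rcases (hF.1.analyticOnNhd hU).eq_zero_or_eq_zero_of_mul_eq_zero
    ((an 0).mul ((an 1).mul (an 2))) N0 hP with h | h
  · exact h
  rcases (an 0).eq_zero_or_eq_zero_of_mul_eq_zero ((an 1).mul (an 2)) h hP with h | h
  · exact fin 0 h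
  rcases (an 1).eq_zero_or_eq_zero_of_mul_eq_zero (an 2) h hP with h | h
  · exact fin 1 h
  · exact fin 2 h

theorem E_lim (J : RowJH) : Tendsto E (comap Complex.im atTop) (𝓝 0) := by
  rw [tendsto_zero_iff_norm_tendsto_zero]
  simp only [J.norm]
  refine Real.tendsto_exp_atBot.comp (tendsto_neg_atTop_atBot.comp ?_)
  exact Tendsto.const_mul_atTop (by positivity) tendsto_comap

theorem hol_pow {A : ℂ → ℂ} (hA : Hol1 A) (m : ℕ) : Hol1 fun τ => A τ ^ m := by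
  obtain ⟨C, Y, h⟩ := hA.2.2
  refine ⟨hA.1.pow m, fun τ h => congrArg (· ^ m) (hA.2.1 τ h), C ^ m, Y, fun τ hτ => ?_⟩
  rw [norm_pow]
  exact pow_le_pow_left₀ (norm_nonneg _) (h τ hτ) m

theorem step (S : RowSER) (J : RowJH) (T : RowINT) (B : RowBASE) (Z : RowNZ) (m : ℕ)
    (F G : ℂ → ℂ) (hF : Hol1 F) (hG : Hol1 G)
    (law : ∀ τ : ℂ, 0 < τ.im → F (-1 / (3 * τ)) = τ ^ (m : ℤ) * G τ) :
    ∃ (l : ℂ) (F₁ G₁ : ℂ → ℂ), Hol1 F₁ ∧ Hol1 G₁ ∧
      (∀ τ : ℂ, 0 < τ.im → F₁ (-1 / (3 * τ)) = τ ^ ((m : ℤ) - 3) * G₁ τ) ∧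
      ∀ τ : ℂ, 0 < τ.im → F τ = l * sr Aa τ ^ m + sr Kk τ ^ 3 * F₁ τ := by
  have hA : Ex 0 (sr Aa) ∧ Ld 0 (sr Aa) 1 := by
    have := S.ex 12 0 (cz Aa) (by norm_num) B.sm.2.1 fun n hn => T.supA.1 n fun h => hn (by
      simp [cz, h])
    simpa [cz, T.supA.2, sr] using this
  have hK : Ex (1 / 3) (sr Kk) ∧ Ld (1 / 3) (sr Kk) 1 := by
    have := S.ex 12 4 (cz Kk) (by norm_num) B.sm.2.2.1 fun n hn => T.supK.1 n fun h => hn (by
      simp [cz, h])
    rw [show (((4 : ℕ) : ℝ) / ((12 : ℕ) : ℝ)) = 1 / 3 by norm_num,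
      show cz Kk 4 = 1 by simp [cz, T.supK.2]] at this
    exact this
  have hAm : Ex 0 fun τ => sr Aa τ ^ m := (ex0 _).2 (hol_pow ((ex0 _).1 hA.1) m)
  have lAm : Tendsto (fun τ => sr Aa τ ^ m) (comap Complex.im atTop) (𝓝 1) := by
    simpa using ((ld0 _ _).1 hA.2).pow m
  have hK3 : Ex 1 (fun τ => sr Kk τ ^ 3) ∧ Ld 1 (fun τ => sr Kk τ ^ 3) 1 := by
    have e1 := S.exMul _ _ _ _ (S.exMul _ _ _ _ hK.1 hK.1) hK.1
    have e2 := S.ldMul _ _ _ _ _ _ (S.ldMul _ _ _ _ _ _ hK.2 hK.2) hK.2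
    have e3 : (fun τ => sr Kk τ * sr Kk τ * sr Kk τ) = fun τ => sr Kk τ ^ 3 := by
      funext τ; ring
    rw [e3, show (1 / 3 + 1 / 3 + 1 / 3 : ℝ) = 1 by norm_num] at e1 e2
    exact ⟨e1, by simpa using e2⟩
  let b : ℂ → ℂ := fun τ => sr Aa (3 * τ) - 3 * sr Kk (3 * τ)
  have hb : Hol1 b ∧ Tendsto b (comap Complex.im atTop) (𝓝 1) := by
    obtain ⟨e1, e2⟩ := S.exScale _ _ 3 _ (by norm_num) hA.1 hA.2
    obtain ⟨e3, e4⟩ := S.exScale _ _ 3 _ (by norm_num) hK.1 hK.2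
    rw [mul_zero] at e1 e2
    rw [show (((3 : ℕ) : ℝ) * (1 / 3)) = 1 by norm_num] at e3 e4
    have e5 := S.exSub 0 _ 1 (by simpa using e3)
    have e6 := S.exAdd 0 _ _ 1 (-3) e1 e5
    have e7 : Tendsto (fun τ => sr Kk (3 * τ)) (comap Complex.im atTop) (𝓝 0) := by
      have := Tendsto.mul e4 (E_lim J)
      rw [mul_zero] at this
      refine this.congr fun τ => ?_
      rw [mul_assoc, ← J.add]
      simp [E]
    refine ⟨(ex0 _).1 (S.exCongr 0 _ _ (fun τ _ => ?_) e6), ?_⟩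
    · simp only [b]; push_cast; ring
    · have := ((ld0 _ _).1 e2).sub (e7.const_mul 3)
      simpa [b] using this
  have s3 : ((√3 : ℝ) : ℂ) ≠ 0 := by
    simp
  obtain ⟨l, hl⟩ := S.exLd 0 F ((ex0 _).2 hF)
  let c : ℂ := -I * 3 / (√3 : ℝ)
  let d : ℂ := -I / (√3 : ℝ)
  have hd : d ≠ 0 := div_ne_zero (neg_ne_zero.2 I_ne_zero) s3
  refine ⟨l, fun τ => (1 * F τ + -l * sr Aa τ ^ m) / sr Kk τ ^ 3,
    fun τ => ((d ^ 3)⁻¹ * G τ + -((d ^ 3)⁻¹ * l * c ^ m) * sr Aa τ ^ m) / b τ ^ 3, ?_, ?_,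
    fun τ h => ?_, fun τ h => ?_⟩
  · have e1 := S.exAdd 0 _ _ 1 (-l) ((ex0 _).2 hF) hAm
    have e2 := S.exUp 0 _ e1 ((ld0 _ _).2 (by
      simpa using (((ld0 _ _).1 hl).const_mul 1).add (lAm.const_mul (-l))))
    have e3 := S.exDiv _ _ _ _ 1 e2 hK3.1 hK3.2 one_ne_zero fun τ h => pow_ne_zero 3 (Z.neK τ h).1
    rw [show (0 + 1 - 1 : ℝ) = 0 by norm_num] at e3
    exact (ex0 _).1 e3
  · have e1 := S.exAdd 0 _ _ (d ^ 3)⁻¹ (-((d ^ 3)⁻¹ * l * c ^ m)) ((ex0 _).2 hG) hAm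
    have e3 := S.exDiv _ _ _ _ 1 e1 ((ex0 _).2 (hol_pow hb.1 3))
      ((ld0 _ _).2 (by simpa using hb.2.pow 3)) one_ne_zero
      fun τ h => pow_ne_zero 3 (Z.neK _ (im3 h)).2
    rw [sub_zero] at e3
    exact (ex0 _).1 e3
  · have h0 := ne0 h
    have hb0 : b τ ≠ 0 := (Z.neK _ (im3 h)).2
    have e1 : sr Aa (-1 / (3 * τ)) = τ * (c * sr Aa τ) := by
      rw [B.lawA _ (im3 h), B.third τ h]; simp only [c]; ring
    have e2 : sr Kk (-1 / (3 * τ)) = τ * (d * b τ) := by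
      rw [B.lawK _ (im3 h)]; simp only [d, b]; field_simp
    simp only []
    rw [law τ h, e1, e2, zpow_sub₀ h0, zpow_natCast, show (3 : ℤ) = ((3 : ℕ) : ℤ) from rfl,
      zpow_natCast, mul_pow, mul_pow, mul_pow, mul_pow]
    field_simp
  · have := (Z.neK τ h).1
    field_simp
    ring

theorem main (S : RowSER) (J : RowJH) (T : RowINT) (B : RowBASE) (Z : RowNZ) (m : ℕ) :
    ∀ F G : ℂ → ℂ, Hol1 F → Hol1 G →
      (∀ τ : ℂ, 0 < τ.im → F (-1 / (3 * τ)) = τ ^ (m : ℤ) * G τ) →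
      ∃ x : ℕ → ℂ, ∀ τ : ℂ, 0 < τ.im → F τ =
        ∑ i ∈ Finset.range (m / 3 + 1), x i * (sr Aa τ ^ (m - 3 * i) * sr Kk τ ^ (3 * i)) := by
  induction m using Nat.strong_induction_on with
  | _ m ih =>
    intro F G hF hG law
    obtain ⟨l, F₁, G₁, h1, h2, h3, h4⟩ := step S J T B Z m F G hF hG law
    rcases lt_or_ge m 3 with hm | hm
    · refine ⟨fun _ => l, fun τ h => ?_⟩
      rw [h4 τ h, neg_zero S _ (by omega) F₁ G₁ h1 h2 h3 τ h, show m / 3 = 0 by omega]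
      simp
    · obtain ⟨n, rfl⟩ := Nat.exists_eq_add_of_le' hm
      obtain ⟨x, hx⟩ := ih n (by omega) F₁ G₁ h1 h2 (by
        intro τ h
        rw [h3 τ h]
        congr 2
        push_cast; ring)
      refine ⟨fun i => Nat.casesOn i l x, fun τ h => ?_⟩
      rw [h4 τ h, hx τ h, show (n + 3) / 3 = n / 3 + 1 by omega, Finset.sum_range_succ' _ (n / 3 + 1),
        Finset.mul_sum, add_comm]
      congr 1
      · refine Finset.sum_congr rfl fun i _ => ?_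
        rw [show n + 3 - 3 * (i + 1) = n - 3 * i by omega]
        ring
      · simp

theorem rowMF3 : OfMF3 := by
  intro S J T B Z w F G hF hG law
  rcases lt_or_ge w 0 with hw | hw
  · exact ⟨0, fun τ h => by simp [neg_zero S w hw F G hF hG law τ h]⟩
  · obtain ⟨m, rfl⟩ := Int.eq_ofNat_of_zero_le hw
    obtain ⟨x, hx⟩ := main S J T B Z m F G hF hG law
    refine ⟨x, fun τ h => ?_⟩
    rw [hx τ h, Int.toNat_natCast]
    refine Finset.sum_congr ?_ fun _ _ => rfl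
    ext i
    simp only [Finset.mem_range, Finset.mem_filter]
    omega

end Pool.Agent.MP_5f72fe_nt.H9
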